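import Pool.Agent.helper6.EV.Spec

set_option autoImplicit false

/-! Module ev:MS of problem MP_5a4a8e_nt. -/

namespace Pool.Agent.EV

open N1f72dd46 Filter MeasureTheory Complex Metric Pool.Agent.helper6.LD

theorem MS_gamma (r : ℝ) (hr : 0 < r) (k : ℕ) :
    IntegrableOn (fun u : ℝ => u ^ k * Real.exp (-(r * u))) (Set.Ioi 0) ∧
    ∫ u in Set.Ioi (0 : ℝ), u ^ k * Real.exp (-(r * u)) = k.factorial / r ^ (k + 1) := by
  constructor
  · have h := integrableOn_rpow_mul_exp_neg_mul_rpow (p := 1) (s := k) (b := r)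
      (by have : (0 : ℝ) ≤ k := Nat.cast_nonneg k
          linarith) one_pos hr
    refine h.congr_fun (fun u hu => ?_) measurableSet_Ioi
    simp only [Real.rpow_natCast, Real.rpow_one]
    ring_nf
  · have h := Real.integral_rpow_mul_exp_neg_mul_Ioi (a := (k : ℝ) + 1) (r := r) (by positivity) hr
    rw [Real.Gamma_nat_eq_factorial] at h
    have h1 : ∫ u in Set.Ioi (0 : ℝ), u ^ k * Real.exp (-(r * u)) =
        ∫ u in Set.Ioi (0 : ℝ), u ^ ((k : ℝ) + 1 - 1) * Real.exp (-(r * u)) := by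
      refine setIntegral_congr_fun measurableSet_Ioi fun u hu => ?_
      simp only [add_sub_cancel_right, Real.rpow_natCast]
    rw [h1, h, show (k : ℝ) + 1 = ((k + 1 : ℕ) : ℝ) by push_cast; ring, Real.rpow_natCast]
    rw [one_div, inv_pow]
    ring

theorem MS (hIN : IN_stmt) (hMS1 : MS1_stmt) : MS_stmt := by
  intro c C x0 hSD
  obtain ⟨hc, hc2, hC, hx0, hsd⟩ := hSD
  obtain ⟨hpe, hmono, _, hint, hintr, _⟩ := hIN
  have hu0 : 0 ≤ Real.log x0 := Real.log_nonneg hx0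
  refine ⟨2 * C + 1500 + 4 * Real.exp (Real.log x0 + 1), Real.log x0 + 1, by positivity,
    by positivity, fun t k ht => ?_⟩
  obtain ⟨u0, hu0'⟩ : ∃ u0, u0 = Real.log x0 := ⟨_, rfl⟩
  rw [← hu0'] at hu0 ⊢
  have ht0 : 0 < t := by linarith
  obtain ⟨l, hl⟩ : ∃ l, l = Real.pi / t := ⟨_, rfl⟩
  have hl0 : 0 < l := by rw [hl]; exact div_pos Real.pi_pos ht0
  have hl1 : l ≤ 1 / 2 := by
    rw [hl, div_le_div_iff₀ ht0 two_pos]
    nlinarith [Real.pi_le_four]
  have hl2 : l ^ 2 ≤ 10 * (t ^ 2)⁻¹ := by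
    rw [hl, div_pow, div_eq_mul_inv]
    have : Real.pi ^ 2 ≤ 10 := by nlinarith [Real.pi_lt_d2, Real.pi_pos]
    exact mul_le_mul_of_nonneg_right this (by positivity)
  -- the difference
  obtain ⟨D, hD⟩ : ∃ D : ℝ → ℝ, ∀ u, D u = 2 * pe u - pe (u + l) - pe (u + -l) :=
    ⟨_, fun _ => rfl⟩
  have hD1 : ∀ u, u0 ≤ u → D u ≤ C * Real.exp ((1 - c) * u) := by
    intro u hu
    have hx : x0 ≤ Real.exp u := by
      rw [← Real.log_le_iff_le_exp (by linarith), ← hu0']
      exact hu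
    have h1 := hsd (Real.exp u) l hx hl0.le hl1
    rw [← Real.exp_add, ← Real.exp_add, ← Real.exp_mul] at h1
    rw [hD]
    have h2 : (1 - c) * u = u * (1 - c) := by ring
    rw [h2]
    show 2 * pc (Real.exp u) - pc (Real.exp (u + l)) - pc (Real.exp (u + -l)) ≤ _
    linarith
  have hD2 : ∀ u, u ≤ u0 → |D u| ≤ 2 * Real.exp (u0 + 1) := by
    intro u hu
    have a1 := hpe u
    have a2 := hpe (u + l)
    have a3 := hpe (u + -l)
    have b1 : Real.exp u ≤ Real.exp (u0 + 1) := Real.exp_le_exp.2 (by linarith)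
    have b2 : Real.exp (u + l) ≤ Real.exp (u0 + 1) := Real.exp_le_exp.2 (by linarith)
    have b3 : Real.exp (u + -l) ≤ Real.exp (u0 + 1) := Real.exp_le_exp.2 (by linarith)
    rw [hD, abs_le]
    constructor <;> linarith
  -- real integrals
  have i0 := hintr k 0
  have i1 := hintr k l
  have i2 := hintr k (-l)
  have e0 : (fun u : ℝ => pe (u + 0) * u ^ k * Real.exp (-4 * u)) =
      fun u : ℝ => pe u * u ^ k * Real.exp (-4 * u) := by
    funext u
    rw [add_zero]
  rw [e0] at i0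
  have hm := hMS1 k l hl0.le hl1
  obtain ⟨ig, vg⟩ := MS_gamma (3 + c) (by linarith) k
  have iind : IntegrableOn (Set.indicator (Set.Ioc 0 u0)
      (fun _ => 4 * Real.exp (u0 + 1) * u0 ^ k)) (Set.Ioi 0) := by
    refine Integrable.integrableOn ?_
    rw [integrable_indicator_iff measurableSet_Ioc]
    exact integrableOn_const (by simp)
  have vind : ∫ u in Set.Ioi (0 : ℝ), Set.indicator (Set.Ioc 0 u0)
      (fun _ => 4 * Real.exp (u0 + 1) * u0 ^ k) u = 4 * Real.exp (u0 + 1) * u0 ^ (k + 1) := by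
    rw [setIntegral_indicator measurableSet_Ioc]
    have h1 : Set.Ioi 0 ∩ Set.Ioc 0 u0 = Set.Ioc 0 u0 := by
      ext u
      simp only [Set.mem_inter_iff, Set.mem_Ioi, Set.mem_Ioc]
      tauto
    rw [h1, setIntegral_const, Measure.real, Real.volume_Ioc, sub_zero, ENNReal.toReal_ofReal hu0,
      smul_eq_mul]
    ring
  -- the complex integral
  have hs : (s4 t).re = 4 := by
    simp [s4]
  have f0 := hint (s4 t) k 0 hs
  have f1 := hint (s4 t) k l hs
  have f2 := hint (s4 t) k (-l) hs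
  have hJ : 2 * Jt (s4 t) k 0 - Jt (s4 t) k l - Jt (s4 t) k (-l) =
      ∫ u in Set.Ioi (0 : ℝ), (2 * ((pe (u + 0) : ℂ) * (u : ℂ) ^ k * Complex.exp (-s4 t * u)) -
        (pe (u + l) : ℂ) * (u : ℂ) ^ k * Complex.exp (-s4 t * u) -
        (pe (u + -l) : ℂ) * (u : ℂ) ^ k * Complex.exp (-s4 t * u)) := by
    have g0 : IntegrableOn (fun u : ℝ => 2 * ((pe (u + 0) : ℂ) * (u : ℂ) ^ k *
        Complex.exp (-s4 t * u))) (Set.Ioi 0) := f0.const_mul 2
    have g1 : IntegrableOn (fun u : ℝ => 2 * ((pe (u + 0) : ℂ) * (u : ℂ) ^ k *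
        Complex.exp (-s4 t * u)) - (pe (u + l) : ℂ) * (u : ℂ) ^ k * Complex.exp (-s4 t * u))
        (Set.Ioi 0) := g0.sub f1
    rw [integral_sub g1 f2, integral_sub g0 f1, integral_const_mul]
    rfl
  have hnorm : ∀ u : ℝ, 0 < u → ‖2 * ((pe (u + 0) : ℂ) * (u : ℂ) ^ k * Complex.exp (-s4 t * u)) -
        (pe (u + l) : ℂ) * (u : ℂ) ^ k * Complex.exp (-s4 t * u) -
        (pe (u + -l) : ℂ) * (u : ℂ) ^ k * Complex.exp (-s4 t * u)‖ =
        |D u| * u ^ k * Real.exp (-4 * u) := by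
    intro u hu
    have h1 : 2 * ((pe (u + 0) : ℂ) * (u : ℂ) ^ k * Complex.exp (-s4 t * u)) -
        (pe (u + l) : ℂ) * (u : ℂ) ^ k * Complex.exp (-s4 t * u) -
        (pe (u + -l) : ℂ) * (u : ℂ) ^ k * Complex.exp (-s4 t * u) =
        ((D u : ℝ) : ℂ) * (u : ℂ) ^ k * Complex.exp (-s4 t * u) := by
      rw [hD, add_zero]
      push_cast
      ring
    rw [h1, norm_mul, norm_mul, norm_pow, Complex.norm_real, Complex.norm_real, Complex.norm_exp,
      Real.norm_eq_abs, Real.norm_eq_abs, abs_of_pos hu]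
    congr 2
    rw [mul_re, neg_re, neg_im, hs, ofReal_re, ofReal_im, mul_zero, sub_zero]
  have hbd : ∀ u : ℝ, 0 < u → |D u| * u ^ k * Real.exp (-4 * u) ≤
      2 * C * (u ^ k * Real.exp (-((3 + c) * u))) + (pe (u + l) * u ^ k * Real.exp (-4 * u) +
        pe (u + -l) * u ^ k * Real.exp (-4 * u) - 2 * (pe u * u ^ k * Real.exp (-4 * u))) +
        Set.indicator (Set.Ioc 0 u0) (fun _ => 4 * Real.exp (u0 + 1) * u0 ^ k) u := by
    intro u hu
    have hw : 0 < u ^ k * Real.exp (-4 * u) := by positivity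
    have e1 : Real.exp (-((3 + c) * u)) = Real.exp ((1 - c) * u) * Real.exp (-4 * u) := by
      rw [← Real.exp_add]
      congr 1
      ring
    have e2 : (pe (u + l) * u ^ k * Real.exp (-4 * u) +
        pe (u + -l) * u ^ k * Real.exp (-4 * u) - 2 * (pe u * u ^ k * Real.exp (-4 * u))) =
        -D u * (u ^ k * Real.exp (-4 * u)) := by
      rw [hD]
      ring
    rw [e1, e2]
    by_cases h : u ≤ u0
    · have h2 := hD2 u h
      rw [Set.indicator_of_mem (show u ∈ Set.Ioc 0 u0 from ⟨hu, h⟩)]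
      have h3 : u ^ k ≤ u0 ^ k := by gcongr
      have h4 : Real.exp (-4 * u) ≤ 1 := Real.exp_le_one_iff.2 (by linarith)
      have h5 : u ^ k * Real.exp (-4 * u) ≤ u0 ^ k := by
        calc u ^ k * Real.exp (-4 * u) ≤ u0 ^ k * 1 := by gcongr
          _ = u0 ^ k := mul_one _
      have h6 : |D u| + D u ≤ 4 * Real.exp (u0 + 1) := by
        have := le_abs_self (D u)
        linarith
      have h7 : (|D u| + D u) * (u ^ k * Real.exp (-4 * u)) ≤ 4 * Real.exp (u0 + 1) * u0 ^ k := by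
        have h8 : 0 ≤ |D u| + D u := by
          have := neg_abs_le (D u)
          linarith
        exact mul_le_mul h6 h5 hw.le (by positivity)
      have h8 : 0 ≤ 2 * C * (u ^ k * (Real.exp ((1 - c) * u) * Real.exp (-4 * u))) := by positivity
      nlinarith
    · have h2 := hD1 u (not_le.1 h).le
      rw [Set.indicator_of_notMem (fun h' => h h'.2), add_zero]
      have h3 : |D u| ≤ 2 * (C * Real.exp ((1 - c) * u)) - D u := by
        have h4 : 0 < C * Real.exp ((1 - c) * u) := by positivity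
        rw [abs_le]
        constructor <;> linarith
      calc |D u| * u ^ k * Real.exp (-4 * u) = |D u| * (u ^ k * Real.exp (-4 * u)) := by ring
        _ ≤ (2 * (C * Real.exp ((1 - c) * u)) - D u) * (u ^ k * Real.exp (-4 * u)) :=
          mul_le_mul_of_nonneg_right h3 hw.le
        _ = _ := by ring
  have igb : IntegrableOn (fun u : ℝ => 2 * C * (u ^ k * Real.exp (-((3 + c) * u))) +
      (pe (u + l) * u ^ k * Real.exp (-4 * u) +
        pe (u + -l) * u ^ k * Real.exp (-4 * u) - 2 * (pe u * u ^ k * Real.exp (-4 * u))) +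
        Set.indicator (Set.Ioc 0 u0) (fun _ => 4 * Real.exp (u0 + 1) * u0 ^ k) u) (Set.Ioi 0) :=
    ((ig.const_mul _).add ((i1.add i2).sub (i0.const_mul 2))).add iind
  have hfin : ‖2 * Jt (s4 t) k 0 - Jt (s4 t) k l - Jt (s4 t) k (-l)‖ ≤
      2 * C * (k.factorial / (3 + c) ^ (k + 1)) + k.factorial * (150 * l ^ 2 / 3 ^ k) +
        4 * Real.exp (u0 + 1) * u0 ^ (k + 1) := by
    rw [hJ]
    refine (norm_integral_le_integral_norm _).trans ?_
    have hle : ∫ u in Set.Ioi (0 : ℝ), ‖2 * ((pe (u + 0) : ℂ) * (u : ℂ) ^ k * Complex.exp (-s4 t * u)) -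
        (pe (u + l) : ℂ) * (u : ℂ) ^ k * Complex.exp (-s4 t * u) -
        (pe (u + -l) : ℂ) * (u : ℂ) ^ k * Complex.exp (-s4 t * u)‖ ≤
        ∫ u in Set.Ioi (0 : ℝ), (2 * C * (u ^ k * Real.exp (-((3 + c) * u))) +
      (pe (u + l) * u ^ k * Real.exp (-4 * u) +
        pe (u + -l) * u ^ k * Real.exp (-4 * u) - 2 * (pe u * u ^ k * Real.exp (-4 * u))) +
        Set.indicator (Set.Ioc 0 u0) (fun _ => 4 * Real.exp (u0 + 1) * u0 ^ k) u) := by
      refine setIntegral_mono_on (((f0.const_mul 2).sub f1).sub f2).norm igb measurableSet_Ioi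
        fun u hu => ?_
      exact (hnorm u hu).le.trans (hbd u hu)
    refine hle.trans ?_
    have j1 : IntegrableOn (fun u : ℝ => 2 * C * (u ^ k * Real.exp (-((3 + c) * u)))) (Set.Ioi 0) :=
      ig.const_mul _
    have j2 : IntegrableOn (fun u : ℝ => pe (u + l) * u ^ k * Real.exp (-4 * u) +
        pe (u + -l) * u ^ k * Real.exp (-4 * u)) (Set.Ioi 0) := i1.add i2
    have j3 : IntegrableOn (fun u : ℝ => 2 * (pe u * u ^ k * Real.exp (-4 * u))) (Set.Ioi 0) :=
      i0.const_mul _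
    have j4 : IntegrableOn (fun u : ℝ => pe (u + l) * u ^ k * Real.exp (-4 * u) +
        pe (u + -l) * u ^ k * Real.exp (-4 * u) - 2 * (pe u * u ^ k * Real.exp (-4 * u)))
        (Set.Ioi 0) := j2.sub j3
    have j5 : IntegrableOn (fun u : ℝ => 2 * C * (u ^ k * Real.exp (-((3 + c) * u))) +
      (pe (u + l) * u ^ k * Real.exp (-4 * u) +
        pe (u + -l) * u ^ k * Real.exp (-4 * u) - 2 * (pe u * u ^ k * Real.exp (-4 * u))))
        (Set.Ioi 0) := j1.add j4
    rw [integral_add j5 iind, integral_add j1 j4, integral_sub j2 j3, integral_add i1 i2,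
      integral_const_mul, integral_const_mul, vind, vg]
    have hm' := hm
    simp only [sub_eq_add_neg] at hm' ⊢
    linarith
  rw [Tk, norm_div, ← hl]
  have hk : 0 < (k.factorial : ℝ) := by positivity
  have hkn : ‖(k.factorial : ℂ)‖ = (k.factorial : ℝ) := by
    rw [Complex.norm_natCast]
  rw [hkn, div_le_iff₀ hk]
  refine hfin.trans ?_
  have g1 : 2 * C * (k.factorial / (3 + c) ^ (k + 1)) ≤ 2 * C * ((3 + c) ^ k)⁻¹ * k.factorial := by
    rw [pow_succ]
    have : (k.factorial : ℝ) / ((3 + c) ^ k * (3 + c)) ≤ ((3 + c) ^ k)⁻¹ * k.factorial := by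
      rw [div_eq_mul_inv, mul_comm ((3 + c) ^ k)⁻¹]
      refine mul_le_mul_of_nonneg_left ?_ hk.le
      refine inv_anti₀ (by positivity) ?_
      nlinarith [show 0 < (3 + c) ^ k by positivity]
    calc 2 * C * (k.factorial / ((3 + c) ^ k * (3 + c))) ≤
        2 * C * (((3 + c) ^ k)⁻¹ * k.factorial) := mul_le_mul_of_nonneg_left this (by positivity)
      _ = _ := by ring
  have g2 : (k.factorial : ℝ) * (150 * l ^ 2 / 3 ^ k) ≤
      1500 * ((t ^ 2)⁻¹ * (3 ^ k)⁻¹) * k.factorial := by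
    calc (k.factorial : ℝ) * (150 * l ^ 2 / 3 ^ k) =
        150 * l ^ 2 * (3 ^ k : ℝ)⁻¹ * k.factorial := by ring
      _ ≤ 150 * (10 * (t ^ 2)⁻¹) * (3 ^ k : ℝ)⁻¹ * k.factorial := by gcongr
      _ = _ := by ring
  have g3 : 4 * Real.exp (u0 + 1) * u0 ^ (k + 1) ≤
      4 * Real.exp (u0 + 1) * ((u0 + 1) ^ (k + 1) / k.factorial) * k.factorial := by
    calc 4 * Real.exp (u0 + 1) * u0 ^ (k + 1) ≤ 4 * Real.exp (u0 + 1) * (u0 + 1) ^ (k + 1) := by
          gcongr
          linarith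
      _ = _ := by
          field_simp
  have p1 : 0 ≤ ((3 + c) ^ k)⁻¹ * (k.factorial : ℝ) := by positivity
  have p2 : 0 ≤ ((t ^ 2)⁻¹ * (3 ^ k)⁻¹) * (k.factorial : ℝ) := by positivity
  have p3 : 0 ≤ ((u0 + 1) ^ (k + 1) / k.factorial) * (k.factorial : ℝ) := by positivity
  have q1 : 0 < Real.exp (u0 + 1) := Real.exp_pos _
  calc 2 * C * (k.factorial / (3 + c) ^ (k + 1)) + k.factorial * (150 * l ^ 2 / 3 ^ k) +
        4 * Real.exp (u0 + 1) * u0 ^ (k + 1) ≤ 2 * C * (((3 + c) ^ k)⁻¹ * k.factorial) +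
        1500 * (((t ^ 2)⁻¹ * (3 ^ k)⁻¹) * k.factorial) +
        4 * Real.exp (u0 + 1) * (((u0 + 1) ^ (k + 1) / k.factorial) * k.factorial) := by linarith
    _ ≤ (2 * C + 1500 + 4 * Real.exp (u0 + 1)) * (((3 + c) ^ k)⁻¹ * k.factorial) +
        (2 * C + 1500 + 4 * Real.exp (u0 + 1)) * (((t ^ 2)⁻¹ * (3 ^ k)⁻¹) * k.factorial) +
        (2 * C + 1500 + 4 * Real.exp (u0 + 1)) * (((u0 + 1) ^ (k + 1) / k.factorial) *
          k.factorial) := by
        gcongr <;> linarith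
    _ = _ := by ring

end Pool.Agent.EV
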